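import Pool.Agent.Helper89.KN.Defs

/-!
# Generic perturbation
-/

set_option autoImplicit false

namespace Pool.KN

open Polynomial

/-- A function which is polynomial on lines and not identically zero is nonzero on a dense set. -/
theorem dense_ne {E : Type} [AddCommGroup E] [Module ℝ E] [TopologicalSpace E]
    [IsTopologicalAddGroup E] [ContinuousSMul ℝ E] (p : E → ℝ)
    (hp : ∀ L R : E, ∃ q : ℝ[X], ∀ t : ℝ, q.eval t = p (L + t • (R - L))) (R : E) (hR : p R ≠ 0) :
    Dense {L | p L ≠ 0} := by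
  intro L
  rw [mem_closure_iff_nhds]
  intro U hU
  obtain ⟨q, hq⟩ := hp L R
  have hq0 : q ≠ 0 := by
    rintro rfl
    have := hq 1
    simp at this
    exact hR this.symm
  have hcont : Filter.Tendsto (fun t : ℝ => L + t • (R - L)) (nhds 0) (nhds L) := by
    have : Continuous (fun t : ℝ => L + t • (R - L)) := by fun_prop
    have h := this.tendsto 0
    simpa using h
  have h1 : ∀ᶠ t : ℝ in nhds 0, L + t • (R - L) ∈ U := hcont hU
  obtain ⟨ε, hε, h2⟩ := Metric.eventually_nhds_iff.1 h1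
  have hfin : {t : ℝ | q.eval t = 0}.Finite := by
    refine (q.roots.toFinset.finite_toSet).subset fun t ht => ?_
    simpa [hq0] using ht
  obtain ⟨t, ht, ht'⟩ := ((Set.Ioo_infinite hε).sdiff hfin).nonempty
  refine ⟨L + t • (R - L), h2 ?_, ?_⟩
  · rw [Real.dist_eq, sub_zero, abs_lt]
    exact ⟨by linarith [ht.1], ht.2⟩
  · show p _ ≠ 0
    rw [← hq t]
    exact ht'

variable {α : Type}

/-- the coordinates on a line, as polynomials -/
theorem br_poly (L R : α → ℝ × ℝ) (a b c : α) : ∃ q : ℝ[X], ∀ t : ℝ,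
    q.eval t = br ((L + t • (R - L)) a) ((L + t • (R - L)) b) ((L + t • (R - L)) c) := by
  refine ⟨((C (L b).1 + X * C ((R b).1 - (L b).1)) - (C (L a).1 + X * C ((R a).1 - (L a).1))) *
    ((C (L c).2 + X * C ((R c).2 - (L c).2)) - (C (L a).2 + X * C ((R a).2 - (L a).2))) -
    ((C (L b).2 + X * C ((R b).2 - (L b).2)) - (C (L a).2 + X * C ((R a).2 - (L a).2))) *
    ((C (L c).1 + X * C ((R c).1 - (L c).1)) - (C (L a).1 + X * C ((R a).1 - (L a).1))),
    fun t => ?_⟩
  simp [br]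

theorem continuous_br (a b c : α) : Continuous fun L : α → ℝ × ℝ => br (L a) (L b) (L c) := by
  unfold br
  fun_prop

theorem dense_br [DecidableEq α] {a b c : α} (h : [a, b, c].Nodup) :
    Dense {L : α → ℝ × ℝ | br (L a) (L b) (L c) ≠ 0} := by
  simp only [List.nodup_cons, List.mem_cons, List.not_mem_nil, or_false, not_or, not_false_eq_true,
    List.nodup_nil, and_true] at h
  obtain ⟨⟨hab, hac⟩, hbc⟩ := h
  refine dense_ne (fun L : α → ℝ × ℝ => br (L a) (L b) (L c)) (fun L R => br_poly L R a b c)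
    (fun z => if z = a then (0, 0) else if z = b then (1, 0) else (0, 1)) ?_
  simp [br, Ne.symm hab, Ne.symm hac, Ne.symm hbc]

theorem dense_six [DecidableEq α] {a b c d e f : α} (h : [a, b, c, d, e, f].Nodup) :
    Dense {L : α → ℝ × ℝ | br (L a) (L b) (L d) * br (L e) (L f) (L c) -
      br (L a) (L b) (L c) * br (L e) (L f) (L d) ≠ 0} := by
  simp only [List.nodup_cons, List.mem_cons, List.not_mem_nil, or_false, not_or, not_false_eq_true,
    List.nodup_nil, and_true] at h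
  obtain ⟨⟨hab, hac, had, hae, haf⟩, ⟨hbc, hbd, hbe, hbf⟩, ⟨hcd, hce, hcf⟩, ⟨hde, hdf⟩, hef⟩ := h
  refine dense_ne (fun L : α → ℝ × ℝ => br (L a) (L b) (L d) * br (L e) (L f) (L c) -
      br (L a) (L b) (L c) * br (L e) (L f) (L d)) (fun L R => ?_)
    (fun z => if z = a then (0, 0) else if z = b then (1, 0) else if z = c then (1, 0) else
      if z = d then (0, 1) else if z = e then (0, 0) else (0, 1)) ?_
  · obtain ⟨q1, h1⟩ := br_poly L R a b d
    obtain ⟨q2, h2⟩ := br_poly L R e f c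
    obtain ⟨q3, h3⟩ := br_poly L R a b c
    obtain ⟨q4, h4⟩ := br_poly L R e f d
    exact ⟨q1 * q2 - q3 * q4, fun t => by simp only [eval_sub, eval_mul, h1, h2, h3, h4]⟩
  · simp [br, Ne.symm hab, Ne.symm hac, Ne.symm had, Ne.symm hae, Ne.symm haf, Ne.symm hbc,
      Ne.symm hbd, Ne.symm hbe, Ne.symm hbf, Ne.symm hcd, Ne.symm hce, Ne.symm hcf, Ne.symm hde,
      Ne.symm hdf, Ne.symm hef]

/-- (KN9) generic perturbation -/
theorem exists_generic_near {α : Type} [Finite α] (L : α → ℝ × ℝ) (δ : ℝ) (hδ : 0 < δ) :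
    ∃ L' : α → ℝ × ℝ, Generic L' ∧ ∀ a, dist (L' a) (L a) < δ := by
  classical
  have := Fintype.ofFinite α
  have h3 : Dense (⋂ z : {z : α × α × α // [z.1, z.2.1, z.2.2].Nodup},
      {L : α → ℝ × ℝ | br (L z.1.1) (L z.1.2.1) (L z.1.2.2) ≠ 0}) :=
    dense_iInter_of_isOpen
      (fun z => isOpen_ne_fun (continuous_br _ _ _) continuous_const) (fun z => dense_br z.2)
  have ho3 : IsOpen (⋂ z : {z : α × α × α // [z.1, z.2.1, z.2.2].Nodup},
      {L : α → ℝ × ℝ | br (L z.1.1) (L z.1.2.1) (L z.1.2.2) ≠ 0}) :=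
    isOpen_iInter_of_finite fun z => isOpen_ne_fun (continuous_br _ _ _) continuous_const
  have h6 : Dense (⋂ z : {z : α × α × α × α × α × α //
      [z.1, z.2.1, z.2.2.1, z.2.2.2.1, z.2.2.2.2.1, z.2.2.2.2.2].Nodup},
      {L : α → ℝ × ℝ | br (L z.1.1) (L z.1.2.1) (L z.1.2.2.2.1) *
        br (L z.1.2.2.2.2.1) (L z.1.2.2.2.2.2) (L z.1.2.2.1) -
      br (L z.1.1) (L z.1.2.1) (L z.1.2.2.1) *
        br (L z.1.2.2.2.2.1) (L z.1.2.2.2.2.2) (L z.1.2.2.2.1) ≠ 0}) :=
    dense_iInter_of_isOpen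
      (fun z => isOpen_ne_fun (((continuous_br _ _ _).mul (continuous_br _ _ _)).sub
        ((continuous_br _ _ _).mul (continuous_br _ _ _))) continuous_const)
      (fun z => dense_six z.2)
  obtain ⟨L', ⟨hL1, hL2⟩, hL'⟩ := (h3.inter_of_isOpen_left h6 ho3).exists_dist_lt L hδ
  refine ⟨L', ⟨fun a b c h => ?_, fun a b c d e f h heq => ?_⟩, fun a => ?_⟩
  · exact Set.mem_iInter.1 hL1 ⟨(a, b, c), h⟩
  · exact Set.mem_iInter.1 hL2 ⟨(a, b, c, d, e, f), h⟩ (sub_eq_zero.2 heq)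
  · rw [dist_comm] at hL'
    exact lt_of_le_of_lt (dist_le_pi_dist L' L a) hL'

end Pool.KN
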