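import Mathlib

/-!
# Ramsey's theorem for `r`-subsets
-/

set_option autoImplicit false

namespace Pool.KN

open Finset

theorem ramsey_step (r : ℕ) (C : Type)
    (ih : ∀ m : ℕ, ∃ N : ℕ, ∀ S : Finset ℕ, N ≤ S.card → ∀ f : Finset ℕ → C,
      ∃ T ⊆ S, T.card = m ∧ ∃ c : C, ∀ U ⊆ T, U.card = r → f U = c) (L : ℕ) :
    ∃ N : ℕ, ∀ S : Finset ℕ, N ≤ S.card → ∀ f : Finset ℕ → C,
      ∃ T ⊆ S, T.card = L ∧ ∃ g : ℕ → C, ∀ U ⊆ T, U.card = r + 1 →
        ∀ a ∈ U, (∀ b ∈ U, a ≤ b) → f U = g a := by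
  classical
  induction L with
  | zero =>
    refine ⟨0, fun S _ f => ⟨∅, empty_subset _, rfl, fun _ => f ∅, fun U hU _ a ha _ => ?_⟩⟩
    exact absurd (hU ha) (notMem_empty a)
  | succ L ihL =>
    obtain ⟨N, hN⟩ := ihL
    obtain ⟨N', hN'⟩ := ih N
    refine ⟨N' + 1, fun S hS f => ?_⟩
    have hne : S.Nonempty := card_pos.1 (by omega)
    set a := S.min' hne with ha
    have haS : a ∈ S := S.min'_mem hne
    obtain ⟨S', hS', hcard, c, hc⟩ := hN' (S.erase a)
      (by rw [card_erase_of_mem haS]; omega) (fun U => f (insert a U))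
    obtain ⟨T, hT, hTc, g, hg⟩ := hN S' (le_of_eq hcard.symm) f
    have haT : a ∉ T := fun h => (mem_erase.1 (hS' (hT h))).1 rfl
    refine ⟨insert a T, ?_, ?_, Function.update g a c, ?_⟩
    · refine insert_subset haS (hT.trans (hS'.trans (erase_subset _ _)))
    · rw [card_insert_of_notMem haT, hTc]
    · intro U hU hUc a0 ha0 hmin
      by_cases h : a ∈ U
      · have hle : a ≤ a0 := by
          have : a0 ∈ S := by
            rcases mem_insert.1 (hU ha0) with h1 | h1
            · rw [h1]; exact haS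
            · exact (mem_erase.1 (hS' (hT h1))).2
          exact S.min'_le a0 this
        have haa : a0 = a := le_antisymm (hmin a h) hle
        rw [haa, Function.update_self]
        have h2 := hc (U.erase a) (fun x hx => by
          obtain ⟨hx1, hx2⟩ := mem_erase.1 hx
          rcases mem_insert.1 (hU hx2) with h3 | h3
          · exact absurd h3 hx1
          · exact hT h3) (by rw [card_erase_of_mem h, hUc]; rfl)
        simpa [insert_erase h] using h2
      · have hUT : U ⊆ T := fun x hx => by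
          rcases mem_insert.1 (hU hx) with h3 | h3
          · exact absurd (h3 ▸ hx) h
          · exact h3
        have hne0 : a0 ≠ a := fun h' => h (h' ▸ ha0)
        rw [Function.update_of_ne hne0]
        exact hg U hUT hUc a0 ha0 hmin

/-- (KN1) Ramsey's theorem for r-subsets. -/
theorem ramsey (r : ℕ) (C : Type) [Finite C] (m : ℕ) :
    ∃ N : ℕ, ∀ S : Finset ℕ, N ≤ S.card → ∀ f : Finset ℕ → C,
      ∃ T ⊆ S, T.card = m ∧ ∃ c : C, ∀ U ⊆ T, U.card = r → f U = c := by
  classical
  induction r generalizing m with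
  | zero =>
    refine ⟨m, fun S hS f => ?_⟩
    obtain ⟨T, hT, hTc⟩ := exists_subset_card_eq hS
    exact ⟨T, hT, hTc, f ∅, fun U _ hU => by rw [card_eq_zero.1 hU]⟩
  | succ r ih =>
    haveI := Fintype.ofFinite C
    obtain ⟨N, hN⟩ := ramsey_step r C ih (Fintype.card C * m)
    refine ⟨N, fun S hS f => ?_⟩
    haveI : Nonempty C := ⟨f ∅⟩
    obtain ⟨T, hT, hTc, g, hg⟩ := hN S hS f
    obtain ⟨c, -, hc⟩ := exists_le_card_fiber_of_mul_le_card_of_maps_to
      (s := T) (t := (univ : Finset C)) (f := g) (n := m) (fun a _ => mem_univ _) univ_nonempty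
      (by rw [hTc]; exact le_rfl)
    obtain ⟨T', hT', hTc'⟩ := exists_subset_card_eq hc
    refine ⟨T', fun x hx => hT (mem_filter.1 (hT' hx)).1, hTc', c, fun U hU hUc => ?_⟩
    have hne : U.Nonempty := card_pos.1 (by omega)
    have h1 := hg U (fun x hx => (mem_filter.1 (hT' (hU hx))).1) hUc (U.min' hne)
      (U.min'_mem hne) (fun b hb => U.min'_le b hb)
    rw [h1]
    exact (mem_filter.1 (hT' (hU (U.min'_mem hne)))).2

end Pool.KN
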